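import Pool.Agent.TH149.WR.Main

/-!
# Weak randomness implies the Erdős–Hajnal property

A hereditary class `F` of finite graphs is in `WR` if every graphon of `F` (limit of graphs of `F`
whose numbers of vertices tend to infinity) has a weakly random subgraphon, i.e. a subgraphon all of
whose subgraphons have the same graphs of positive induced density.

**Theorem.** Every hereditary class of graphs in `WR` has the Erdős–Hajnal property.

This answers the question of the problem positively, without assuming the Erdős–Hajnal conjecture.

Outline of the proof. Let `F` be a hereditary class without the Erdős–Hajnal property.

* Let `T j` be the path `0, 1, …, j + 4` with one more leaf at `2` and one more leaf at `j + 2`. The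
  trees `T j`, `j ≥ 1`, and their complements are prime and pairwise incomparable (`S_tree`).
* For every `k` there are `N ≥ k` and `ε > 0` such that every graph on `n` vertices with maximal
  degree at most `ε n` and without two anticomplete sets of size `ε n` contains some `T j` with
  `k ≤ j ≤ N` as an induced subgraph (`S_block`). Proof: divide the vertices into blocks; a minimal
  subset of a block which covers a third of some other block is attached to that block, the other
  blocks are replaced by their parts without neighbours in the subset. In this game we choose the
  block to be processed, the graph chooses where it is attached, and the attachments form an induced
  tree. We have a strategy which forces some `T j`.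
* With Rödl's theorem (`S_rodl`) it follows that the graphs without `T j` and without the complement
  of `T j` for `k ≤ j ≤ N` have the Erdős–Hajnal property (`S_ehpT`).
* By the substitution argument of Alon, Pach and Solymosi (`S_ext`, `S_aps`) and a chain of
  subclasses of `F` without the Erdős–Hajnal property (`S_chain`), there are infinitely many `j` such
  that all iterated lexicographic products of certain graphs `P j`, each one equal to `T j` or to
  its complement, belong to `F`.
* The infinite iterated lexicographic product, in which `P j` is used on many consecutive levels, is
  a graphon of `F` (`S_lim`). It has no weakly random subgraphon: a set of positive measure contains
  the graph `P j` with positive density for some `j` (`S_cells`, `S_pos`), but its part in a small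
  cell does not, since `P j` is prime and does not embed in the later graphs (`S_zero`).
-/

open Pool.Agent.TH149.WR

namespace Pool.Agent.Results.MP_18a3c4_co.WeaklyRandomErdosHajnal

/-- **Weak randomness implies the Erdős–Hajnal property.** Let `F` be a hereditary class of finite
graphs such that every graphon of `F` has a weakly random subgraphon. Then there is `c > 0` such
that every graph of `F` on `n` vertices has a clique or an independent set with at least `n ^ c`
vertices. -/
theorem result (F : GClass) (hF : Hereditary F) (hWR : HasWR F) : EHP F :=
  main F hF hWR

end Pool.Agent.Results.MP_18a3c4_co.WeaklyRandomErdosHajnal
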